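import Pool.Agent.Y489.GE.Stm

/-!
# Short closed geodesics from reflections and from isometries without fixed points
-/

set_option autoImplicit false

open Set Topology

namespace Pool.Agent.H180.Sym

open Pool.Agent.Y489.GE

variable {X : Type} [MetricSpace X]

/-- a curve which is continued by an isometry of finite order -/
theorem closed_of_translation (ρ : X ≃ᵢ X) {m : ℕ} (hm : 1 ≤ m) (hρ : ρ ^ m = 1) {T ε : ℝ}
    (hT : 0 < T) (hε : 0 < ε) (hεT : ε ≤ T) (c : ℝ → X)
    (h1 : ∀ s ∈ Icc 0 T, ∀ t ∈ Icc 0 T, |s - t| ≤ ε → dist (c s) (c t) = |s - t|)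
    (h2 : ∀ s ∈ Icc 0 T, ∀ u ∈ Icc 0 T, T - s + u ≤ ε → dist (c s) (ρ (c u)) = T - s + u) :
    ClosedGeod X (m * T) := by
  set γ : ℝ → X := fun t => (ρ ^ ⌊t / T⌋) (c (T * Int.fract (t / T))) with hγ
  have hshift : ∀ (t : ℝ) (k : ℤ), γ (t + k * T) = (ρ ^ k) (γ t) := by
    intro t k
    have e : (t + k * T) / T = t / T + k := by
      field_simp
    simp only [hγ]
    rw [e, Int.floor_add_intCast, Int.fract_add_intCast, add_comm ⌊t / T⌋ k, zpow_add]
    rfl
  have h0 : ∀ t : ℝ, 0 ≤ t → t < T → γ t = c t := by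
    intro t ht0 htT
    have e1 : 0 ≤ t / T := div_nonneg ht0 hT.le
    have e2 : t / T < 1 := (div_lt_one hT).2 htT
    have e3 : ⌊t / T⌋ = 0 := Int.floor_eq_zero_iff.2 ⟨e1, e2⟩
    have e4 : Int.fract (t / T) = t / T := Int.fract_eq_self.2 ⟨e1, e2⟩
    simp only [hγ]
    rw [e3, e4, zpow_zero, mul_div_cancel₀ _ hT.ne']
    rfl
  have key : ∀ s t : ℝ, s ≤ t → t - s ≤ ε → dist (γ s) (γ t) = t - s := by
    intro s t hst hle
    set k : ℤ := ⌊s / T⌋ with hk
    have a1 : (k : ℝ) * T ≤ s := by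
      have := Int.floor_le (s / T)
      rwa [le_div_iff₀ hT] at this
    have a2 : s < (k + 1) * T := by
      have := Int.lt_floor_add_one (s / T)
      rwa [div_lt_iff₀ hT] at this
    have e1 : γ s = (ρ ^ k) (γ (s - k * T)) := by
      rw [← hshift]
      congr 1
      ring
    have e2 : γ t = (ρ ^ k) (γ (t - k * T)) := by
      rw [← hshift]
      congr 1
      ring
    rw [e1, e2, (ρ ^ k).isometry.dist_eq]
    have b1 : 0 ≤ s - k * T := by linarith
    have b2 : s - k * T < T := by linarith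
    rw [h0 _ b1 b2]
    by_cases hlt : t - k * T < T
    · rw [h0 _ (by linarith) hlt, h1 _ ⟨b1, b2.le⟩ _ ⟨by linarith, hlt.le⟩]
      · rw [abs_sub_comm, abs_of_nonneg (by linarith)]
        ring
      · rw [abs_sub_comm, abs_of_nonneg (by linarith)]
        linarith
    · push Not at hlt
      have e3 : γ (t - k * T) = ρ (c (t - k * T - T)) := by
        have := hshift (t - k * T - T) 1
        rw [Int.cast_one, one_mul, zpow_one] at this
        rw [← h0 (t - k * T - T) (by linarith) (by linarith), ← this]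
        congr 1
        ring
      rw [e3, h2 _ ⟨b1, b2.le⟩ _ ⟨by linarith, by linarith⟩ (by linarith)]
      ring
  refine ⟨γ, m * T, by positivity, le_rfl, ?_, ε, hε, ?_⟩
  · intro t
    have := hshift t m
    rw [zpow_natCast, hρ] at this
    simpa using this
  · intro s t hst
    rcases le_total s t with h | h
    · rw [key s t h (by rwa [abs_sub_comm, abs_of_nonneg (by linarith)] at hst), abs_sub_comm,
        abs_of_nonneg (by linarith)]
    · rw [dist_comm, key t s h (by rwa [abs_of_nonneg (by linarith)] at hst),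
        abs_of_nonneg (by linarith)]

/-- minimal geodesics parametrised by arc length -/
theorem exists_arc (hX : GeodSpace X) (x y : X) (hxy : x ≠ y) :
    ∃ c : ℝ → X, c 0 = x ∧ c (dist x y) = y ∧
      ∀ s ∈ Icc 0 (dist x y), ∀ t ∈ Icc 0 (dist x y), dist (c s) (c t) = |s - t| := by
  obtain ⟨c, h0, h1, h2⟩ := hX x y
  have hd : 0 < dist x y := dist_pos.2 hxy
  refine ⟨fun s => c (s / dist x y), by simp [h0], by simp [div_self hd.ne', h1], ?_⟩
  intro s hs t ht
  have e : ∀ u ∈ Icc 0 (dist x y), u / dist x y ∈ Icc (0 : ℝ) 1 := fun u hu =>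
    ⟨div_nonneg hu.1 hd.le, (div_le_one hd).2 hu.2⟩
  rw [h2 _ (e s hs) _ (e t ht), ← sub_div, abs_div, abs_of_pos hd, div_mul_cancel₀ _ hd.ne']

/-- an isometry of finite order without fixed points -/
theorem closed_of_free [CompactSpace X] (hX : GeodSpace X) (σ : X ≃ᵢ X) {m : ℕ} (hm : 1 ≤ m)
    (hσ : σ ^ m = 1) (hfix : ∀ x, σ x ≠ x) (y : X) : ClosedGeod X (m * dist y (σ y)) := by
  obtain ⟨x, -, hx⟩ := isCompact_univ.exists_isMinOn (f := fun x => dist x (σ x)) ⟨y, mem_univ y⟩
    (continuous_id.dist σ.continuous).continuousOn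
  have hmin : ∀ z, dist x (σ x) ≤ dist z (σ z) := fun z => hx (mem_univ z)
  obtain ⟨c, c0, c1, c2⟩ := exists_arc hX x (σ x) (hfix x).symm
  set T := dist x (σ x) with hT
  have hTpos : 0 < T := dist_pos.2 (hfix x).symm
  have h := closed_of_translation σ hm hσ hTpos hTpos le_rfl c
    (fun s hs t ht _ => c2 s hs t ht) ?_
  · obtain ⟨γ, ℓ, g1, g2, g3, g4⟩ := h
    exact ⟨γ, ℓ, g1, g2.trans (mul_le_mul_of_nonneg_left (hmin y) (Nat.cast_nonneg m)), g3, g4⟩
  · intro s hs u hu hle
    have hus : u ≤ s := by linarith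
    refine le_antisymm ?_ ?_
    · calc dist (c s) (σ (c u)) ≤ dist (c s) (c T) + dist (c T) (σ (c u)) := dist_triangle _ _ _
        _ = (T - s) + u := by
          rw [c2 s hs T ⟨hTpos.le, le_rfl⟩, c1, ← c0, σ.isometry.dist_eq,
            c2 0 ⟨le_rfl, hTpos.le⟩ u hu, abs_sub_comm, abs_of_nonneg (by linarith [hs.2]),
            zero_sub, abs_neg, abs_of_nonneg hu.1]
    · have e1 : T ≤ dist (c u) (σ (c u)) := hmin _
      have e2 : dist (c u) (σ (c u)) ≤ dist (c u) (c s) + dist (c s) (σ (c u)) :=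
        dist_triangle _ _ _
      rw [c2 u hu s hs, abs_sub_comm, abs_of_nonneg (by linarith)] at e2
      linarith

/-- a minimal geodesic from `a` to the set `B` of fixed points is continued by the reflection -/
theorem reflect {r : ℝ} (hX : GeodSpace X) (hU : UniqGeod X r) (τ : X ≃ᵢ X)
    (hτ : ∀ x, τ (τ x) = x) {B : Set X} {η : ℝ} {b : X} (hb : τ b = b)
    (hη : ∀ z, τ z = z → z ∉ B → η ≤ dist b z) {a : X} {L : ℝ}
    (hmin : ∀ z ∈ B, L ≤ dist a z) {c : ℝ → X}
    (hc : ∀ s, 0 ≤ s → s ≤ L → dist a (c s) = L - s)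
    (hcb : ∀ s, 0 ≤ s → s ≤ L → dist b (c s) = s)
    (hcc : ∀ s, 0 ≤ s → s ≤ L → ∀ t, 0 ≤ t → t ≤ L → dist (c s) (c t) = |s - t|)
    {s u : ℝ} (hs : 0 ≤ s) (hu : 0 ≤ u) (hsL : s ≤ L) (huL : u ≤ L) (hsr : 2 * s < r)
    (hur : 2 * u < r) (hsη : 2 * s < η) (huη : 2 * u < η) :
    dist (c s) (τ (c u)) = s + u := by
  have mid : ∀ s, 0 ≤ s → s ≤ L → 2 * s < r → 2 * s < η → 2 * s ≤ dist (c s) (τ (c s)) := by
    intro s hs hsL hsr hsη
    obtain ⟨e, e0, e1, e2⟩ := hX (c s) (τ (c s))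
    set d := dist (c s) (τ (c s)) with hd
    have hd2 : d ≤ 2 * s := by
      calc d ≤ dist (c s) b + dist b (τ (c s)) := dist_triangle _ _ _
        _ = dist b (c s) + dist b (c s) := by
          rw [dist_comm (c s) b]
          congr 1
          conv_lhs => rw [← hb]
          exact τ.isometry.dist_eq _ _
        _ = 2 * s := by rw [hcb s hs hsL]; ring
    set z := e (1 / 2) with hz
    have z1 : dist (c s) z = d / 2 := by
      have := e2 0 ⟨le_rfl, zero_le_one⟩ (1 / 2) ⟨by norm_num, by norm_num⟩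
      rw [e0] at this
      rw [this, zero_sub, abs_neg, abs_of_nonneg (by norm_num)]
      ring
    have z2 : dist z (τ (c s)) = d / 2 := by
      have := e2 (1 / 2) ⟨by norm_num, by norm_num⟩ 1 ⟨zero_le_one, le_rfl⟩
      rw [e1] at this
      rw [this, abs_sub_comm, abs_of_nonneg (by norm_num)]
      ring
    have z3 : dist (c s) (τ z) = d / 2 := by
      rw [← τ.isometry.dist_eq, hτ, dist_comm]
      exact z2
    have z4 : dist (τ z) (τ (c s)) = d / 2 := by
      rw [τ.isometry.dist_eq, dist_comm]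
      exact z1
    have hzfix : τ z = z := by
      refine (hU (c s) (τ (c s)) z (τ z) (lt_of_le_of_lt hd2 hsr) ?_ ?_ ?_).symm
      · rw [z1, z2]; ring
      · rw [z3, z4]; ring
      · rw [z1, z3]
    have hzB : z ∈ B := by
      by_contra hzB
      have h1 := hη z hzfix hzB
      have h2 : dist b z ≤ dist b (c s) + dist (c s) z := dist_triangle _ _ _
      rw [hcb s hs hsL, z1] at h2
      linarith
    have h1 := hmin z hzB
    have h2 : dist a z ≤ dist a (c s) + dist (c s) z := dist_triangle _ _ _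
    rw [hc s hs hsL, z1] at h2
    linarith
  have hbd : ∀ u, 0 ≤ u → u ≤ L → dist b (τ (c u)) = u := by
    intro u hu huL
    conv_lhs => rw [← hb]
    rw [τ.isometry.dist_eq]
    exact hcb u hu huL
  have hup : dist (c s) (τ (c u)) ≤ s + u := by
    calc dist (c s) (τ (c u)) ≤ dist (c s) b + dist b (τ (c u)) := dist_triangle _ _ _
      _ = s + u := by rw [dist_comm (c s) b, hcb s hs hsL, hbd u hu huL]
  refine le_antisymm hup ?_
  rcases le_total u s with h | h
  · have h1 := mid s hs hsL hsr hsη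
    have h2 : dist (c s) (τ (c s)) ≤ dist (c s) (τ (c u)) + dist (τ (c u)) (τ (c s)) :=
      dist_triangle _ _ _
    rw [τ.isometry.dist_eq, hcc u hu huL s hs hsL, abs_sub_comm, abs_of_nonneg (by linarith)]
      at h2
    linarith
  · have h1 := mid u hu huL hur huη
    have h2 : dist (c u) (τ (c u)) ≤ dist (c u) (c s) + dist (c s) (τ (c u)) :=
      dist_triangle _ _ _
    rw [hcc u hu huL s hs hsL, abs_of_nonneg (by linarith)] at h2
    linarith

/-- a positive distance to the other fixed points -/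
theorem exists_gap [CompactSpace X] {C : Set X} (hC : IsClosed C) {b : X} (hb : b ∉ C) :
    ∃ η : ℝ, 0 < η ∧ ∀ z ∈ C, η ≤ dist b z := by
  have := hC.isOpen_compl.mem_nhds (show b ∈ Cᶜ from hb)
  obtain ⟨η, h1, h2⟩ := Metric.mem_nhds_iff.1 this
  refine ⟨η, h1, fun z hz => ?_⟩
  by_contra hlt
  push Not at hlt
  exact h2 (Metric.mem_ball'.2 hlt) hz

/-- two reflections whose product has finite order -/
theorem closed_of_reflections [CompactSpace X] {r : ℝ} (hr : 0 < r) (hX : GeodSpace X)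
    (hU : UniqGeod X r) (σ τ : X ≃ᵢ X) (hσ : σ * σ = 1) (hτ : τ * τ = 1) {m : ℕ} (hm : 1 ≤ m)
    (hστ : (σ * τ) ^ m = 1) {A B : Set X} (hA : IsClosed A) (hB : IsClosed B)
    (hAσ : ∀ x ∈ A, σ x = x) (hBτ : ∀ x ∈ B, τ x = x)
    (hA' : IsClosed ({x | σ x = x} \ A)) (hB' : IsClosed ({x | τ x = x} \ B))
    (hAB : Disjoint A B) {a₀ b₀ : X} (ha₀ : a₀ ∈ A) (hb₀ : b₀ ∈ B) :
    ClosedGeod X (2 * m * dist a₀ b₀) := by
  have hσ' : ∀ x, σ (σ x) = x := fun x => DFunLike.congr_fun hσ x
  have hτ' : ∀ x, τ (τ x) = x := fun x => DFunLike.congr_fun hτ x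
  obtain ⟨⟨a, b⟩, ⟨ha, hb⟩, hab⟩ := (hA.isCompact.prod hB.isCompact).exists_isMinOn
    (f := fun z : X × X => dist z.1 z.2) ⟨(a₀, b₀), ha₀, hb₀⟩
    (continuous_fst.dist continuous_snd).continuousOn
  have hmin : ∀ x ∈ A, ∀ y ∈ B, dist a b ≤ dist x y := fun x hx y hy => hab (mk_mem_prod hx hy)
  have hne : a ≠ b := by
    rintro rfl
    exact Set.disjoint_left.1 hAB ha hb
  obtain ⟨c, c0, c1, c2⟩ := exists_arc hX a b hne
  set L := dist a b with hL
  have hLpos : 0 < L := dist_pos.2 hne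
  obtain ⟨η₁, hη₁, hη₁'⟩ := exists_gap hA' (b := a) (fun h => h.2 ha)
  obtain ⟨η₂, hη₂, hη₂'⟩ := exists_gap hB' (b := b) (fun h => h.2 hb)
  -- the reflection at `b`
  have rb : ∀ s u : ℝ, 0 ≤ s → 0 ≤ u → s ≤ L → u ≤ L → 2 * s < r → 2 * u < r → 2 * s < η₂ →
      2 * u < η₂ → dist (c (L - s)) (τ (c (L - u))) = s + u := by
    intro s u hs hu hsL huL hsr hur hsη huη
    refine reflect (c := fun s => c (L - s)) hX hU τ hτ' (B := B) (hBτ b hb)
      (fun z hz hzB => hη₂' z ⟨hz, hzB⟩) (fun z hz => hmin a ha z hz) ?_ ?_ ?_ hs hu hsL huL hsr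
      hur hsη huη
    · intro s hs hsL
      rw [← c0, c2 0 ⟨le_rfl, hLpos.le⟩ (L - s) ⟨by linarith, by linarith⟩, zero_sub, abs_neg,
        abs_of_nonneg (by linarith)]
    · intro s hs hsL
      rw [← c1, c2 L ⟨hLpos.le, le_rfl⟩ (L - s) ⟨by linarith, by linarith⟩,
        abs_of_nonneg (by linarith)]
      ring
    · intro s hs hsL t ht htL
      rw [c2 _ ⟨by linarith, by linarith⟩ _ ⟨by linarith, by linarith⟩, abs_sub_comm]
      congr 1
      ring
  -- the reflection at `a`
  have ra : ∀ s u : ℝ, 0 ≤ s → 0 ≤ u → s ≤ L → u ≤ L → 2 * s < r → 2 * u < r → 2 * s < η₁ →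
      2 * u < η₁ → dist (c s) (σ (c u)) = s + u := by
    intro s u hs hu hsL huL hsr hur hsη huη
    refine reflect hX hU σ hσ' (B := A) (hAσ a ha)
      (fun z hz hzA => hη₁' z ⟨hz, hzA⟩) (a := b) (L := L)
      (fun z hz => by rw [dist_comm]; exact hmin z hz b hb) ?_ ?_ ?_ hs hu hsL huL hsr hur hsη
      huη
    · intro s hs hsL
      rw [← c1, c2 L ⟨hLpos.le, le_rfl⟩ s ⟨hs, hsL⟩, abs_of_nonneg (by linarith)]
    · intro s hs hsL
      rw [← c0, c2 0 ⟨le_rfl, hLpos.le⟩ s ⟨hs, hsL⟩, zero_sub, abs_neg, abs_of_nonneg hs]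
    · intro s hs hsL t ht htL
      exact c2 _ ⟨hs, hsL⟩ _ ⟨ht, htL⟩
  set ε : ℝ := min (min (r / 4) (L / 2)) (min (η₁ / 4) (η₂ / 4)) with hε
  have hε0 : 0 < ε := by
    refine lt_min (lt_min (by linarith) (by linarith)) (lt_min (by linarith) (by linarith))
  have hεr : ε ≤ r / 4 := (min_le_left _ _).trans (min_le_left _ _)
  have hεL : ε ≤ L / 2 := (min_le_left _ _).trans (min_le_right _ _)
  have hε1 : ε ≤ η₁ / 4 := (min_le_right _ _).trans (min_le_left _ _)
  have hε2 : ε ≤ η₂ / 4 := (min_le_right _ _).trans (min_le_right _ _)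
  have hρ : (τ * σ) ^ m = 1 := by
    have h1 : τ * σ = (σ * τ)⁻¹ := by
      rw [mul_inv_rev, inv_eq_of_mul_eq_one_right hσ, inv_eq_of_mul_eq_one_right hτ]
    rw [h1, inv_pow, hστ, inv_one]
  have h := closed_of_translation (τ * σ) hm hρ (T := 2 * L) (ε := ε) (by linarith) hε0
    (by linarith) (fun t => if t ≤ L then c t else τ (c (2 * L - t))) ?_ ?_
  · obtain ⟨γ, ℓ, g1, g2, g3, g4⟩ := h
    refine ⟨γ, ℓ, g1, g2.trans ?_, g3, g4⟩
    have := hmin a₀ ha₀ b₀ hb₀
    have hm0 : (0 : ℝ) ≤ m := Nat.cast_nonneg m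
    nlinarith
  · have main : ∀ s ∈ Icc 0 (2 * L), ∀ t ∈ Icc 0 (2 * L), s ≤ t → t - s ≤ ε →
        dist (if s ≤ L then c s else τ (c (2 * L - s)))
          (if t ≤ L then c t else τ (c (2 * L - t))) = t - s := by
      intro s hs t ht hst hle
      by_cases h1 : t ≤ L
      · rw [if_pos h1, if_pos (hst.trans h1), c2 s ⟨hs.1, hst.trans h1⟩ t ⟨ht.1, h1⟩,
          abs_sub_comm, abs_of_nonneg (by linarith)]
      · rw [if_neg h1]
        push Not at h1
        by_cases h2 : s ≤ L
        · rw [if_pos h2]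
          have := rb (L - s) (t - L) (by linarith) (by linarith) (by linarith [hs.1])
            (by linarith [ht.2]) (by linarith) (by linarith) (by linarith) (by linarith)
          rw [show L - (L - s) = s by ring, show L - (t - L) = 2 * L - t by ring] at this
          rw [this]
          ring
        · rw [if_neg h2]
          push Not at h2
          rw [τ.isometry.dist_eq, c2 _ ⟨by linarith [hs.2], by linarith⟩ _
            ⟨by linarith [ht.2], by linarith⟩, abs_of_nonneg (by linarith)]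
          ring
    intro s hs t ht hle
    rcases le_total s t with h | h
    · rw [abs_sub_comm, abs_of_nonneg (by linarith)] at hle ⊢
      exact main s hs t ht h hle
    · rw [abs_of_nonneg (by linarith)] at hle ⊢
      rw [dist_comm]
      exact main t ht s hs h hle
  · intro s hs u hu hle
    have hsL : ¬ s ≤ L := by linarith [hu.1]
    have huL : u ≤ L := by linarith [hs.2]
    rw [if_neg hsL, if_pos huL]
    change dist (τ (c (2 * L - s))) (τ (σ (c u))) = 2 * L - s + u
    rw [τ.isometry.dist_eq]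
    exact ra (2 * L - s) u (by linarith [hs.2]) hu.1 (by linarith) huL
      (by linarith [hu.1]) (by linarith [hs.2]) (by linarith [hu.1]) (by linarith [hs.2])

end Pool.Agent.H180.Sym
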